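import Pool.Agent.Hhelper30.Frac.Count

/-!
# Subgroup codes in fraction graphs: the closed form of the norm bound
-/

namespace Pool.Agent.Hhelper30.Frac

open Polynomial Finset ArithmeticFunction

theorem w_pos {d : ℕ} (hd : 1 < d) : 0 < w d :=
  Real.rpow_pos_of_pos (by exact_mod_cast eval_nonneg hd) _

theorem log_w {d : ℕ} (hd : 1 < d) : Real.log (w d) = Λ d / (d.totient : ℝ) := by
  have hP : (0 : ℝ) < (((cyclotomic d ℤ).eval 1 : ℤ) : ℝ) := by exact_mod_cast eval_nonneg hd
  unfold w
  rw [Real.log_rpow hP, one_div, inv_mul_eq_div]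
  congr 1
  rw [vonMangoldt_apply]
  split_ifs with h
  · obtain ⟨p, k, hp, hk, rfl⟩ := (isPrimePow_nat_iff _).1 h
    obtain ⟨k, rfl⟩ : ∃ k', k = k' + 1 := ⟨k - 1, by omega⟩
    have := Fact.mk hp
    rw [eval_one_cyclotomic_prime_pow, hp.pow_minFac (Nat.succ_ne_zero k)]
    norm_cast
  · rw [eval_one_cyclotomic_not_prime_pow]
    · simp
    · intro p hp k hk
      rcases Nat.eq_zero_or_pos k with rfl | h0
      · rw [pow_zero] at hk
        omega
      · exact h ((isPrimePow_nat_iff _).2 ⟨p, k, hp, h0, hk⟩)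

theorem term_le {a b d : ℕ} (ha : 0 < a) (hb : 0 < b) (hab : 2 * b ≤ a) (hda : d ∣ a) :
    ((fib a b d).card : ℝ) * (Λ d / (d.totient : ℝ)) ≤
      (if d = 2 then Real.log 2 else 0) + 3 * ((a : ℝ) - 2 * b) / a * Λ d := by
  have haR : (0 : ℝ) < a := by exact_mod_cast ha
  have habR : (0 : ℝ) ≤ (a : ℝ) - 2 * b := by
    have : (2 : ℝ) * b ≤ a := by exact_mod_cast hab
    linarith
  have hlog2 : (0 : ℝ) ≤ Real.log 2 := Real.log_nonneg (by norm_num)
  have hΛ : 0 ≤ Λ d := vonMangoldt_nonneg
  have hif : (0 : ℝ) ≤ (if d = 2 then Real.log 2 else 0) := by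
    split_ifs
    · exact hlog2
    · exact le_rfl
  have hR : 0 ≤ 3 * ((a : ℝ) - 2 * b) / a * Λ d := by positivity
  by_cases hpp : IsPrimePow d
  swap
  · have h0 : Λ d = 0 := vonMangoldt_eq_zero_iff.2 hpp
    rw [h0]
    simp only [zero_div, mul_zero, add_zero]
    exact hif
  · obtain ⟨p, k, hp, hk, hpk⟩ := (isPrimePow_nat_iff _).1 hpp
    obtain ⟨k, rfl⟩ : ∃ k', k = k' + 1 := ⟨k - 1, by omega⟩
    have hd0 : 0 < d := Nat.pos_of_dvd_of_pos hda ha
    have hdR : (0 : ℝ) < d := by exact_mod_cast hd0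
    have htot : 0 < d.totient := Nat.totient_pos.2 hd0
    have htotR : (0 : ℝ) < (d.totient : ℝ) := by exact_mod_cast htot
    have hcastdiv : (((a / d : ℕ)) : ℝ) = (a : ℝ) / d := Nat.cast_div hda hdR.ne'
    have hsub : (((a - 2 * b : ℕ)) : ℝ) = (a : ℝ) - 2 * b := by
      rw [Nat.cast_sub hab]
      push_cast
      ring
    -- reduction to `card * a ≤ 3 (a - 2 b) φ(d)`
    have hred : ((fib a b d).card : ℝ) * a ≤ 3 * ((a : ℝ) - 2 * b) * d.totient →
        ((fib a b d).card : ℝ) * (Λ d / (d.totient : ℝ)) ≤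
          (if d = 2 then Real.log 2 else 0) + 3 * ((a : ℝ) - 2 * b) / a * Λ d := by
      intro h
      have h1 : ((fib a b d).card : ℝ) * (Λ d / (d.totient : ℝ)) ≤
          3 * ((a : ℝ) - 2 * b) / a * Λ d := by
        have e1 : ((fib a b d).card : ℝ) * (Λ d / (d.totient : ℝ)) =
            ((fib a b d).card : ℝ) / (d.totient : ℝ) * Λ d := by ring
        rw [e1]
        refine mul_le_mul_of_nonneg_right ?_ hΛ
        rw [div_le_div_iff₀ htotR haR]
        exact h
      linarith
    rcases hp.eq_two_or_odd' with rfl | hodd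
    · rcases Nat.eq_zero_or_pos k with rfl | hk0
      · -- `d = 2`
        have hd2 : d = 2 := by rw [← hpk]; norm_num
        subst hd2
        rw [if_pos rfl]
        have h1 : ((fib a b 2).card : ℝ) ≤ 1 := by exact_mod_cast fib_two ha hb hab
        have h2 : Λ 2 / ((Nat.totient 2 : ℕ) : ℝ) = Real.log 2 := by
          rw [vonMangoldt_apply_prime Nat.prime_two, Nat.totient_two]
          norm_num
        rw [h2]
        have h3 : ((fib a b 2).card : ℝ) * Real.log 2 ≤ 1 * Real.log 2 :=
          mul_le_mul_of_nonneg_right h1 hlog2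
        linarith
      · -- `4 ∣ d`
        refine hred ?_
        have h4 : 4 ∣ d := by
          rw [← hpk]
          obtain ⟨k, rfl⟩ : ∃ k', k = k' + 1 := ⟨k - 1, by omega⟩
          exact ⟨2 ^ k, by ring⟩
        have h5 := (fib_even ha hab hda h4).1
        have h6 : ((fib a b d).card : ℝ) * (2 * ((a : ℝ) / d)) ≤ 2 * ((a : ℝ) - 2 * b) := by
          rw [← hcastdiv, ← hsub]
          exact_mod_cast h5
        have h7 : ((d.totient : ℕ) : ℝ) = d / 2 := by
          rw [← hpk, Nat.totient_prime_pow_succ Nat.prime_two]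
          push_cast
          rw [pow_succ]
          ring
        rw [h7]
        have h8 : ((fib a b d).card : ℝ) * a ≤ ((a : ℝ) - 2 * b) * d := by
          have := mul_le_mul_of_nonneg_right h6 (by linarith : (0 : ℝ) ≤ d / 2)
          have e : ((fib a b d).card : ℝ) * (2 * ((a : ℝ) / d)) * (d / 2) =
              ((fib a b d).card : ℝ) * a := by field_simp
          rw [e] at this
          linarith
        have h9 : 0 ≤ ((a : ℝ) - 2 * b) * d := mul_nonneg habR hdR.le
        linarith
    · refine hred ?_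
      have hdodd : Odd d := by rw [← hpk]; exact hodd.pow
      have h5 := (fib_odd ha hab hda hdodd).1
      have h6 : ((fib a b d).card : ℝ) * ((a : ℝ) / d) ≤ 2 * ((a : ℝ) - 2 * b) := by
        rw [← hcastdiv, ← hsub]
        exact_mod_cast h5
      have hp3 : 3 ≤ p := by
        have h2 := hp.two_le
        rcases h2.eq_or_lt with h | h
        · rw [← h] at hodd
          exact absurd hodd (by decide)
        · exact h
      have h7 : 2 * (d : ℝ) ≤ 3 * ((d.totient : ℕ) : ℝ) := by
        have : 2 * d ≤ 3 * d.totient := by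
          rw [← hpk, Nat.totient_prime_pow_succ hp]
          obtain ⟨r, rfl⟩ : ∃ r, p = r + 3 := ⟨p - 3, by omega⟩
          have e : r + 3 - 1 = r + 2 := by omega
          rw [e, pow_succ]
          have h0 : 0 ≤ (r + 3) ^ k := Nat.zero_le _
          nlinarith
        exact_mod_cast this
      have h8 : ((fib a b d).card : ℝ) * a ≤ 2 * ((a : ℝ) - 2 * b) * d := by
        have := mul_le_mul_of_nonneg_right h6 hdR.le
        have e : ((fib a b d).card : ℝ) * ((a : ℝ) / d) * d = ((fib a b d).card : ℝ) * a := by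
          field_simp
        rw [e] at this
        exact this
      have h9 := mul_le_mul_of_nonneg_left h7 habR
      linarith

theorem prod_w_le {a b : ℕ} (ha : 0 < a) (hb : 0 < b) (hab : 2 * b ≤ a) :
    ∏ j ∈ Finset.Icc b (a - b), w (a / Nat.gcd a j) ≤
      (if Even a then 2 else 1) * (a : ℝ) ^ (3 * ((a : ℝ) - 2 * b) / a) := by
  have haR : (0 : ℝ) < a := by exact_mod_cast ha
  have hord : ∀ j ∈ Finset.Icc b (a - b), 1 < a / Nat.gcd a j := by
    intro j hj
    rw [Finset.mem_Icc] at hj
    have hg : Nat.gcd a j ∣ a := Nat.gcd_dvd_left a j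
    have h5 : Nat.gcd a j ≤ j := Nat.gcd_le_right a (by omega)
    rw [Nat.lt_div_iff_mul_lt' hg]
    omega
  have hpos : 0 < ∏ j ∈ Finset.Icc b (a - b), w (a / Nat.gcd a j) :=
    Finset.prod_pos fun j hj => w_pos (hord j hj)
  have hlog : Real.log (∏ j ∈ Finset.Icc b (a - b), w (a / Nat.gcd a j)) ≤
      (if Even a then Real.log 2 else 0) + 3 * ((a : ℝ) - 2 * b) / a * Real.log a := by
    rw [Real.log_prod (fun j hj => (w_pos (hord j hj)).ne')]
    have hmaps : ∀ j ∈ Finset.Icc b (a - b), a / Nat.gcd a j ∈ a.divisors := by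
      intro j _
      rw [Nat.mem_divisors]
      exact ⟨Nat.div_dvd_of_dvd (Nat.gcd_dvd_left a j), ha.ne'⟩
    rw [← Finset.sum_fiberwise_of_maps_to hmaps]
    have h1 : ∀ d ∈ a.divisors, ∑ j ∈ (Finset.Icc b (a - b)).filter
        (fun j => a / Nat.gcd a j = d), Real.log (w (a / Nat.gcd a j)) ≤
        (if d = 2 then Real.log 2 else 0) + 3 * ((a : ℝ) - 2 * b) / a * Λ d := by
      intro d hd
      have hda : d ∣ a := (Nat.mem_divisors.1 hd).1
      have hd0 : 0 < d := Nat.pos_of_dvd_of_pos hda ha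
      have h2 : ∑ j ∈ (Finset.Icc b (a - b)).filter (fun j => a / Nat.gcd a j = d),
          Real.log (w (a / Nat.gcd a j)) = ((fib a b d).card : ℝ) * Real.log (w d) := by
        unfold fib
        rw [← nsmul_eq_mul, ← Finset.sum_const]
        refine Finset.sum_congr rfl fun j hj => ?_
        rw [(Finset.mem_filter.1 hj).2]
      rw [h2]
      rcases Nat.lt_or_ge 1 d with hd1 | hd1
      · rw [log_w hd1]
        exact term_le ha hb hab hda
      · have hd1' : d = 1 := by omega
        subst hd1'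
        rw [fib_one ha hb hab, Finset.card_empty, vonMangoldt_apply_one]
        norm_num
    refine (Finset.sum_le_sum h1).trans ?_
    rw [Finset.sum_add_distrib, ← Finset.mul_sum, vonMangoldt_sum]
    refine add_le_add ?_ le_rfl
    rw [Finset.sum_ite_eq' a.divisors 2 (fun _ => Real.log 2)]
    by_cases h2 : 2 ∈ a.divisors
    · rw [if_pos h2, if_pos]
      exact (even_iff_two_dvd.2 (Nat.mem_divisors.1 h2).1)
    · rw [if_neg h2]
      split_ifs
      · exact Real.log_nonneg (by norm_num)
      · exact le_rfl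
  have h3 : Real.log ((if Even a then 2 else 1) * (a : ℝ) ^ (3 * ((a : ℝ) - 2 * b) / a)) =
      (if Even a then Real.log 2 else 0) + 3 * ((a : ℝ) - 2 * b) / a * Real.log a := by
    split_ifs
    · rw [Real.log_mul (by norm_num) (Real.rpow_pos_of_pos haR _).ne', Real.log_rpow haR]
    · rw [one_mul, Real.log_rpow haR, zero_add]
  rw [← h3] at hlog
  refine (Real.log_le_log_iff hpos ?_).1 hlog
  refine mul_pos ?_ (Real.rpow_pos_of_pos haR _)
  split_ifs <;> norm_num

end Pool.Agent.Hhelper30.Frac
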