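import Pool.Agent.Hhelper30.Frac.Norm

/-!
# Subgroup codes in fraction graphs: counting the roots of unity near `-1`
-/

namespace Pool.Agent.Hhelper30.Frac

open Polynomial Finset ArithmeticFunction

theorem count_aux {S : Finset ℕ} {a G D : ℕ} (hG : 0 < G)
    (h : ∀ j ∈ S, ∃ u : ℤ, 2 * (j : ℤ) - a = G * (2 * u + 1) ∧ |2 * (j : ℤ) - a| ≤ D) :
    S.card * G ≤ 2 * D ∧ (D < G → S = ∅) := by
  have hG' : (0 : ℤ) < G := by exact_mod_cast hG
  have habs : ∀ u : ℤ, (G : ℤ) ≤ |(G : ℤ) * (2 * u + 1)| := by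
    intro u
    rw [abs_mul, abs_of_pos hG']
    have : 1 ≤ |2 * u + 1| := Int.one_le_abs (by omega)
    nlinarith
  have hempty : D < G → S = ∅ := by
    intro hDG
    rw [Finset.eq_empty_iff_forall_notMem]
    intro j hj
    obtain ⟨u, hu1, hu2⟩ := h j hj
    rw [hu1] at hu2
    have := habs u
    have hDG' : (D : ℤ) < G := by exact_mod_cast hDG
    omega
  refine ⟨?_, hempty⟩
  rcases Nat.lt_or_ge D G with hDG | hDG
  · rw [hempty hDG]
    simp
  · set Y := D / G with hY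
    have hY1 : 1 ≤ Y := (Nat.one_le_div_iff hG).2 hDG
    have hYD : Y * G ≤ D := Nat.div_mul_le_self D G
    choose! u hu1 hu2 using h
    have hcard : S.card ≤ Y + 1 := by
      have h1 : (S.image u).card = S.card := by
        refine Finset.card_image_of_injOn ?_
        intro x hx y hy hxy
        have e1 := hu1 x hx
        have e2 := hu1 y hy
        have hxy' : u x = u y := hxy
        rw [hxy'] at e1
        have : (x : ℤ) = y := by linarith
        exact_mod_cast this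
      have h2 : S.image u ⊆ Finset.Icc (-(((Y : ℤ) + 1) / 2)) (((Y : ℤ) - 1) / 2) := by
        intro z hz
        obtain ⟨j, hj, rfl⟩ := Finset.mem_image.1 hz
        have e1 := hu2 j hj
        rw [hu1 j hj, abs_mul, abs_of_pos hG'] at e1
        have e2 : |2 * u j + 1| ≤ (Y : ℤ) := by
          have e3 : |2 * u j + 1| ≤ (D : ℤ) / G := by
            rw [Int.le_ediv_iff_mul_le hG', mul_comm]
            exact e1
          rw [hY]
          exact_mod_cast e3
        rw [abs_le] at e2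
        rw [Finset.mem_Icc]
        constructor <;> omega
      have h3 := Finset.card_le_card h2
      rw [h1, Int.card_Icc] at h3
      omega
    calc S.card * G ≤ (Y + 1) * G := Nat.mul_le_mul_right _ hcard
      _ ≤ (2 * Y) * G := Nat.mul_le_mul_right _ (by omega)
      _ = 2 * (Y * G) := by ring
      _ ≤ 2 * D := by omega

/-- The exponents `j` in `[b, a - b]` for which `ζ^j` has order `d`. -/
def fib (a b d : ℕ) : Finset ℕ := (Finset.Icc b (a - b)).filter (fun j => a / Nat.gcd a j = d)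

theorem form {a b d j : ℕ} (ha : 0 < a) (hab : 2 * b ≤ a) (hj : j ∈ fib a b d) :
    ∃ t, j = (a / d) * t ∧ a = (a / d) * d ∧ Nat.Coprime d t ∧
      |2 * (j : ℤ) - a| ≤ ((a - 2 * b : ℕ) : ℤ) := by
  unfold fib at hj
  rw [Finset.mem_filter, Finset.mem_Icc] at hj
  obtain ⟨⟨h1, h2⟩, h3⟩ := hj
  have hg : Nat.gcd a j ∣ a := Nat.gcd_dvd_left a j
  have hg' : Nat.gcd a j ∣ j := Nat.gcd_dvd_right a j
  have hgpos : 0 < Nat.gcd a j := Nat.gcd_pos_of_pos_left _ ha
  have e1 : a / d = Nat.gcd a j := by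
    rw [← h3]
    exact Nat.div_div_self hg ha.ne'
  refine ⟨j / Nat.gcd a j, ?_, ?_, ?_, ?_⟩
  · rw [e1, Nat.mul_div_cancel' hg']
  · rw [e1, ← h3, Nat.mul_div_cancel' hg]
  · rw [← h3]
    exact Nat.coprime_div_gcd_div_gcd hgpos
  · rw [abs_le]
    constructor <;> omega

theorem fib_one {a b : ℕ} (ha : 0 < a) (hb : 0 < b) (hab : 2 * b ≤ a) : fib a b 1 = ∅ := by
  rw [Finset.eq_empty_iff_forall_notMem]
  intro j hj
  have hj' := hj
  obtain ⟨t, h1, h2, -, -⟩ := form ha hab hj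
  rw [Nat.div_one] at h1
  unfold fib at hj'
  rw [Finset.mem_filter, Finset.mem_Icc] at hj'
  rcases Nat.eq_zero_or_pos t with rfl | ht
  · omega
  · have : a * 1 ≤ a * t := Nat.mul_le_mul_left a ht
    omega

theorem fib_two {a b : ℕ} (ha : 0 < a) (hb : 0 < b) (hab : 2 * b ≤ a) : (fib a b 2).card ≤ 1 := by
  rw [Finset.card_le_one]
  have key : ∀ j ∈ fib a b 2, 2 * j = a := by
    intro j hj
    have hj' := hj
    obtain ⟨t, h1, h2, h3, -⟩ := form ha hab hj
    unfold fib at hj'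
    rw [Finset.mem_filter, Finset.mem_Icc] at hj'
    have ht : t = 1 := by
      rcases Nat.eq_zero_or_pos t with rfl | ht
      · omega
      · rcases Nat.lt_or_ge t 2 with h4 | h4
        · omega
        · have : a / 2 * 2 ≤ a / 2 * t := Nat.mul_le_mul_left _ h4
          omega
    subst ht
    omega
  intro x hx y hy
  have := key x hx
  have := key y hy
  omega

theorem fib_odd {a b d : ℕ} (ha : 0 < a) (hab : 2 * b ≤ a) (hda : d ∣ a) (hd : Odd d) :
    (fib a b d).card * (a / d) ≤ 2 * (a - 2 * b) ∧ (a - 2 * b < a / d → fib a b d = ∅) := by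
  have hd0 : 0 < d := hd.pos
  have hG : 0 < a / d := Nat.div_pos (Nat.le_of_dvd ha hda) hd0
  refine count_aux (a := a) hG ?_
  intro j hj
  obtain ⟨t, h1, h2, h3, h4⟩ := form ha hab hj
  obtain ⟨e, he⟩ := hd
  refine ⟨(t : ℤ) - e - 1, ?_, h4⟩
  have h1' : (j : ℤ) = ((a / d : ℕ) : ℤ) * t := by exact_mod_cast h1
  have h2' : (a : ℤ) = ((a / d : ℕ) : ℤ) * d := by exact_mod_cast h2
  have he' : (d : ℤ) = 2 * e + 1 := by exact_mod_cast he
  generalize ((a / d : ℕ) : ℤ) = G at *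
  rw [h1', h2', he']
  ring

theorem fib_even {a b d : ℕ} (ha : 0 < a) (hab : 2 * b ≤ a) (hda : d ∣ a) (hd : 4 ∣ d) :
    (fib a b d).card * (2 * (a / d)) ≤ 2 * (a - 2 * b) ∧
      (a - 2 * b < 2 * (a / d) → fib a b d = ∅) := by
  have hd0 : 0 < d := Nat.pos_of_dvd_of_pos hda ha
  have hG : 0 < a / d := Nat.div_pos (Nat.le_of_dvd ha hda) hd0
  refine count_aux (a := a) (by omega) ?_
  intro j hj
  obtain ⟨t, h1, h2, h3, h4⟩ := form ha hab hj
  obtain ⟨e, he⟩ := hd
  have ht : Odd t := by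
    rw [← Nat.not_even_iff_odd]
    intro hev
    have h5 : 2 ∣ Nat.gcd d t := Nat.dvd_gcd (Dvd.intro (2 * e) (by omega)) hev.two_dvd
    rw [h3] at h5
    omega
  obtain ⟨m, hm⟩ := ht
  refine ⟨(m : ℤ) - e, ?_, h4⟩
  have h1' : (j : ℤ) = ((a / d : ℕ) : ℤ) * t := by exact_mod_cast h1
  have h2' : (a : ℤ) = ((a / d : ℕ) : ℤ) * d := by exact_mod_cast h2
  have he' : (d : ℤ) = 4 * e := by exact_mod_cast he
  have hm' : (t : ℤ) = 2 * m + 1 := by exact_mod_cast hm
  rw [Nat.cast_mul, Nat.cast_ofNat]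
  generalize ((a / d : ℕ) : ℤ) = G at *
  rw [h1', h2', he', hm']
  ring

end Pool.Agent.Hhelper30.Frac
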