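import Mathlib

/-!
# Subgroup codes in fraction graphs: the norm bound

`K = ℚ(ζ_a)`.  For a subgroup `H` of `(ℤ/a)ⁿ` all of whose nonzero elements have a coordinate in
`[b, a - b]`, the order of `H` divides `(∏_{j = b}^{a - b} (ζ_a^j - 1))ⁿ` in `ℤ[ζ_a]`.
-/

namespace Pool.Agent.Hhelper30.Frac

open Polynomial IntermediateField

/-- The norm of `1 - x` for a root of unity `x`. -/
theorem norm_root {K : Type*} [Field K] [NumberField K] {d : ℕ} (hd : 0 < d) {x : K}
    (hx : IsPrimitiveRoot x d) :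
    |(Algebra.norm ℚ (x - 1) : ℚ)| ^ d.totient =
      |(((cyclotomic d ℤ).eval 1 : ℤ) : ℚ)| ^ Module.finrank ℚ K := by
  have hint : IsIntegral ℚ x := Algebra.IsIntegral.isIntegral x
  have hint' : IsIntegral ℚ (x - 1) := Algebra.IsIntegral.isIntegral _
  have h1 : minpoly ℚ (x - 1) = (cyclotomic d ℚ).comp (X + C 1) := by
    have := minpoly.sub_algebraMap (A := ℚ) x 1
    rw [map_one] at this
    rw [this, cyclotomic_eq_minpoly_rat hx hd]
  have h2 : (minpoly ℚ (x - 1)).coeff 0 = (((cyclotomic d ℤ).eval 1 : ℤ) : ℚ) := by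
    rw [h1, coeff_zero_eq_eval_zero, eval_comp, eval_add, eval_X, eval_C, zero_add]
    rw [← map_cyclotomic d (Int.castRingHom ℚ), eval_one_map]
    rfl
  have h3 : Module.finrank ℚ ℚ⟮x - 1⟯ = d.totient := by
    rw [adjoin.finrank hint', h1, natDegree_comp, natDegree_cyclotomic, natDegree_X_add_C, mul_one]
  have h4 : Module.finrank ℚ ℚ⟮x - 1⟯ * Module.finrank ℚ⟮x - 1⟯ K = Module.finrank ℚ K :=
    Module.finrank_mul_finrank ℚ ℚ⟮x - 1⟯ K
  have h5 : Algebra.norm ℚ (AdjoinSimple.gen ℚ (x - 1)) =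
      (-1) ^ (adjoin.powerBasis hint').dim * (((cyclotomic d ℤ).eval 1 : ℤ) : ℚ) := by
    have := Algebra.PowerBasis.norm_gen_eq_coeff_zero_minpoly (adjoin.powerBasis hint')
    rw [adjoin.powerBasis_gen, minpoly_gen, h2] at this
    exact this
  have h6 : Algebra.norm ℚ (x - 1) = ((-1) ^ (adjoin.powerBasis hint').dim *
      (((cyclotomic d ℤ).eval 1 : ℤ) : ℚ)) ^ Module.finrank ℚ⟮x - 1⟯ K := by
    rw [Algebra.norm_eq_norm_adjoin ℚ (x - 1)]
    exact congrArg (· ^ Module.finrank ℚ⟮x - 1⟯ K) h5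
  rw [h6, abs_pow, abs_mul, abs_pow, abs_neg, abs_one,
    one_pow, one_mul, ← pow_mul, ← h4, h3, mul_comm]

theorem sum_dvd {G R ι : Type*} [AddCommGroup G] [Fintype G] [CommRing R] [IsDomain R]
    (s : Finset ι) (c : ι → R) (χ : ι → AddChar G R) : ∀ ψ : AddChar G R,
    ((Fintype.card G : ℕ) : R) ∣ ∑ g, (∏ k ∈ s, (c k - χ k g)) * ψ g := by
  induction s using Finset.cons_induction with
  | empty =>
    intro ψ
    classical
    simp only [Finset.prod_empty, one_mul]
    rw [AddChar.sum_eq_ite]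
    split_ifs
    · exact dvd_rfl
    · exact dvd_zero _
  | cons k s hk ih =>
    intro ψ
    have h : ∑ g, (∏ k ∈ Finset.cons k s hk, (c k - χ k g)) * ψ g =
        c k * ∑ g, (∏ k ∈ s, (c k - χ k g)) * ψ g -
        ∑ g, (∏ k ∈ s, (c k - χ k g)) * (χ k * ψ) g := by
      rw [Finset.mul_sum, ← Finset.sum_sub_distrib]
      refine Finset.sum_congr rfl fun g _ => ?_
      rw [Finset.prod_cons, AddChar.mul_apply]
      ring
    rw [h]
    exact dvd_sub (Dvd.dvd.mul_left (ih ψ) _) (ih _)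

/-- `H` is an independent set of the strong power of the fraction graph `E_{a/b}`. -/
def Ind {a n : ℕ} (b : ℕ) (H : AddSubgroup (Fin n → ZMod a)) : Prop :=
  ∀ x ∈ H, x ≠ 0 → ∃ i, b ≤ (x i).val ∧ b ≤ (-x i).val

theorem dvd_main {R : Type*} [CommRing R] [IsDomain R] {a b n : ℕ} [NeZero a] (hb : 0 < b) {ζ : R}
    (hζ : IsPrimitiveRoot ζ a) {H : AddSubgroup (Fin n → ZMod a)} (hH : Ind b H) :
    ((Nat.card H : ℕ) : R) ∣ (∏ j ∈ Finset.Icc b (a - b), (ζ ^ j - 1)) ^ n := by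
  classical
  let e : AddChar (ZMod a) R := AddChar.zmodChar a hζ.pow_eq_one
  let χ : Fin n × ℕ → AddChar H R := fun k =>
    e.compAddMonoidHom ((Pi.evalAddMonoidHom (fun _ : Fin n => ZMod a) k.1).comp H.subtype)
  have hχ : ∀ k (g : H), χ k g = ζ ^ ((g : Fin n → ZMod a) k.1).val := fun k g => rfl
  have h1 := sum_dvd (Finset.univ ×ˢ Finset.Icc b (a - b)) (fun k : Fin n × ℕ => ζ ^ k.2) χ 1
  rw [← Nat.card_eq_fintype_card] at h1
  have h2 : ∑ g : H, (∏ k ∈ Finset.univ ×ˢ Finset.Icc b (a - b), (ζ ^ k.2 - χ k g)) *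
      (1 : AddChar H R) g = (∏ j ∈ Finset.Icc b (a - b), (ζ ^ j - 1)) ^ n := by
    rw [Finset.sum_eq_single (0 : H)]
    · rw [AddChar.one_apply, mul_one, Finset.prod_product]
      have : ∀ i : Fin n, ∏ j ∈ Finset.Icc b (a - b), (ζ ^ j - χ (i, j) 0) =
          ∏ j ∈ Finset.Icc b (a - b), (ζ ^ j - 1) := by
        intro i
        refine Finset.prod_congr rfl fun j _ => ?_
        rw [AddChar.map_zero_eq_one]
      rw [Finset.prod_congr rfl (fun i _ => this i), Finset.prod_const, Finset.card_univ,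
        Fintype.card_fin]
    · intro g _ hg
      obtain ⟨i, hi1, hi2⟩ := hH g g.2 (fun h => hg (Subtype.ext h))
      have hne : (g : Fin n → ZMod a) i ≠ 0 := by
        intro h0
        rw [h0, ZMod.val_zero] at hi1
        omega
      have : NeZero ((g : Fin n → ZMod a) i) := ⟨hne⟩
      rw [ZMod.val_neg_of_ne_zero] at hi2
      have hlt := ZMod.val_lt ((g : Fin n → ZMod a) i)
      rw [Finset.prod_eq_zero (i := (i, ((g : Fin n → ZMod a) i).val)), zero_mul]
      · rw [Finset.mem_product]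
        refine ⟨Finset.mem_univ _, Finset.mem_Icc.2 ⟨hi1, ?_⟩⟩
        omega
      · rw [hχ, sub_self]
    · intro h
      exact (h (Finset.mem_univ _)).elim
  rw [h2] at h1
  exact h1

/-- `Φ_d(1)^(1/φ(d))`: `ℓ^(1/φ(d))` if `d > 1` is a power of the prime `ℓ`, and `1` if `d > 1` is not
a prime power. -/
noncomputable def w (d : ℕ) : ℝ :=
  (((cyclotomic d ℤ).eval 1 : ℤ) : ℝ) ^ ((1 : ℝ) / (d.totient : ℝ))

theorem eval_nonneg {d : ℕ} (hd : 1 < d) : 0 < ((cyclotomic d ℤ).eval 1 : ℤ) := by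
  by_cases h : IsPrimePow d
  · obtain ⟨p, k, hp, hk, rfl⟩ := (isPrimePow_nat_iff _).1 h
    obtain ⟨k, rfl⟩ : ∃ k', k = k' + 1 := ⟨k - 1, by omega⟩
    have := Fact.mk hp
    rw [eval_one_cyclotomic_prime_pow]
    exact_mod_cast hp.pos
  · rw [eval_one_cyclotomic_not_prime_pow]
    · exact one_pos
    · intro p hp k hk
      rcases Nat.eq_zero_or_pos k with rfl | h0
      · rw [pow_zero] at hk
        omega
      · exact h ((isPrimePow_nat_iff _).2 ⟨p, k, hp, h0, hk⟩)

theorem norm_bound_aux (K : Type) [Field K] [NumberField K] {a b n : ℕ} [NeZero a]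
    [IsCyclotomicExtension {a} ℚ K] (hb : 0 < b) {H : AddSubgroup (Fin n → ZMod a)}
    (hH : Ind b H) :
    (Nat.card H : ℝ) ≤ (∏ j ∈ Finset.Icc b (a - b), w (a / Nat.gcd a j)) ^ n := by
  have hζ := IsCyclotomicExtension.zeta_spec a ℚ K
  set ζ := hζ.toInteger with hζdef
  have hζ' : IsPrimitiveRoot ζ a := hζ.toInteger_isPrimitiveRoot
  have hfin : Module.finrank ℚ K = a.totient :=
    IsCyclotomicExtension.finrank K (cyclotomic.irreducible_rat (NeZero.pos a))
  have h1 := dvd_main hb hζ' hH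
  have h2 := map_dvd (Algebra.norm ℤ) h1
  have h3 : Algebra.norm ℤ ((Nat.card H : ℕ) : NumberField.RingOfIntegers K) =
      (Nat.card H : ℤ) ^ a.totient := by
    have := Algebra.norm_algebraMap (R := ℤ) (S := NumberField.RingOfIntegers K) (Nat.card H : ℤ)
    rw [NumberField.RingOfIntegers.rank, hfin] at this
    rw [← this]
    congr 1
    simp
  rw [h3, map_pow, map_prod] at h2
  have key : ∀ j ∈ Finset.Icc b (a - b),
      |((Algebra.norm ℤ (ζ ^ j - 1) : ℤ) : ℝ)| = (w (a / Nat.gcd a j)) ^ a.totient ∧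
      0 < |((Algebra.norm ℤ (ζ ^ j - 1) : ℤ) : ℝ)| := by
    intro j hj
    rw [Finset.mem_Icc] at hj
    have hja : j < a := by
      have := NeZero.pos a
      omega
    have hj0 : 0 < j := by omega
    set d := a / Nat.gcd a j with hd
    have hg : Nat.gcd a j ∣ a := Nat.gcd_dvd_left a j
    have hgpos : 0 < Nat.gcd a j := Nat.gcd_pos_of_pos_right _ hj0
    have hd1 : 1 < d := by
      have h5 : Nat.gcd a j ≤ j := Nat.gcd_le_right a hj0
      rw [hd, Nat.lt_div_iff_mul_lt' hg]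
      omega
    have hx : IsPrimitiveRoot ((ζ ^ j : NumberField.RingOfIntegers K) : K) d := by
      have h6 : ((ζ ^ j : NumberField.RingOfIntegers K) : K) =
          (IsCyclotomicExtension.zeta a ℚ K) ^ j := rfl
      rw [h6]
      have h7 := IsPrimitiveRoot.orderOf ((IsCyclotomicExtension.zeta a ℚ K) ^ j)
      rw [orderOf_pow' _ hj0.ne', ← hζ.eq_orderOf] at h7
      exact h7
    have h8 := norm_root (by omega) hx
    rw [hfin] at h8
    have h9 : (Algebra.norm ℚ (((ζ ^ j : NumberField.RingOfIntegers K) : K) - 1) : ℚ) =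
        ((Algebra.norm ℤ (ζ ^ j - 1) : ℤ) : ℚ) := by
      rw [Algebra.coe_norm_int]
      congr 1
    rw [h9] at h8
    have h10 : |((Algebra.norm ℤ (ζ ^ j - 1) : ℤ) : ℝ)| ^ d.totient =
        (((cyclotomic d ℤ).eval 1 : ℤ) : ℝ) ^ a.totient := by
      have h11 := congrArg (fun q : ℚ => (q : ℝ)) h8
      simp only [Rat.cast_pow, Rat.cast_abs, Rat.cast_intCast] at h11
      rw [h11, abs_of_pos]
      exact_mod_cast eval_nonneg hd1
    have hP : (0 : ℝ) < (((cyclotomic d ℤ).eval 1 : ℤ) : ℝ) := by exact_mod_cast eval_nonneg hd1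
    have htd : 0 < d.totient := Nat.totient_pos.2 (by omega)
    have hpos : 0 < |((Algebra.norm ℤ (ζ ^ j - 1) : ℤ) : ℝ)| := by
      rcases (abs_nonneg ((Algebra.norm ℤ (ζ ^ j - 1) : ℤ) : ℝ)).eq_or_lt with h0 | h0
      · rw [← h0, zero_pow htd.ne'] at h10
        have : (0 : ℝ) < (((cyclotomic d ℤ).eval 1 : ℤ) : ℝ) ^ a.totient := pow_pos hP _
        rw [← h10] at this
        exact (lt_irrefl _ this).elim
      · exact h0
    refine ⟨?_, hpos⟩
    have h12 : (w d ^ a.totient) ^ d.totient = (((cyclotomic d ℤ).eval 1 : ℤ) : ℝ) ^ a.totient := by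
      unfold w
      rw [← pow_mul, mul_comm, pow_mul, one_div, Real.rpow_inv_natCast_pow hP.le htd.ne']
    rw [← h12] at h10
    have hw : 0 ≤ w d := Real.rpow_nonneg hP.le _
    exact (pow_left_inj₀ hpos.le (pow_nonneg hw _) htd.ne').1 h10
  have hne : (∏ j ∈ Finset.Icc b (a - b), Algebra.norm ℤ (ζ ^ j - 1)) ^ n ≠ 0 := by
    refine pow_ne_zero _ (Finset.prod_ne_zero_iff.2 fun j hj h0 => ?_)
    have := (key j hj).2
    rw [h0, Int.cast_zero, abs_zero] at this
    exact lt_irrefl _ this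
  have h4 := Int.natAbs_le_of_dvd_ne_zero h2 hne
  have h5 : ((Nat.card H : ℝ)) ^ a.totient ≤
      ((∏ j ∈ Finset.Icc b (a - b), w (a / Nat.gcd a j)) ^ n) ^ a.totient := by
    have h6 : ((((Nat.card H : ℤ) ^ a.totient).natAbs : ℕ) : ℝ) ≤
        ((((∏ j ∈ Finset.Icc b (a - b), Algebra.norm ℤ (ζ ^ j - 1)) ^ n).natAbs : ℕ) : ℝ) := by
      exact_mod_cast h4
    rw [Nat.cast_natAbs, Nat.cast_natAbs] at h6
    have h7 : ((|(Nat.card H : ℤ) ^ a.totient| : ℤ) : ℝ) = (Nat.card H : ℝ) ^ a.totient := by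
      rw [abs_of_nonneg (by positivity)]
      push_cast
      rfl
    have h8 : ((|(∏ j ∈ Finset.Icc b (a - b), Algebra.norm ℤ (ζ ^ j - 1)) ^ n| : ℤ) : ℝ) =
        ((∏ j ∈ Finset.Icc b (a - b), w (a / Nat.gcd a j)) ^ n) ^ a.totient := by
      rw [Int.cast_abs, Int.cast_pow, Int.cast_prod, abs_pow, Finset.abs_prod,
        Finset.prod_congr rfl (fun j hj => (key j hj).1), Finset.prod_pow, ← pow_mul, ← pow_mul,
        mul_comm]
    rw [h7, h8] at h6
    exact h6
  refine le_of_pow_le_pow_left₀ (n := a.totient) ?_ ?_ h5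
  · exact (Nat.totient_pos.2 (NeZero.pos a)).ne'
  · refine pow_nonneg (Finset.prod_nonneg fun j hj => ?_) _
    have h9 := key j hj
    unfold w
    refine Real.rpow_nonneg ?_ _
    rw [Finset.mem_Icc] at hj
    have hj0 : 0 < j := by omega
    have h10 : 1 < a / Nat.gcd a j := by
      have h5 : Nat.gcd a j ≤ j := Nat.gcd_le_right a hj0
      rw [Nat.lt_div_iff_mul_lt' (Nat.gcd_dvd_left a j)]
      have := NeZero.pos a
      omega
    exact_mod_cast (eval_nonneg h10).le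

theorem norm_bound {a b n : ℕ} [NeZero a] (hb : 0 < b) {H : AddSubgroup (Fin n → ZMod a)}
    (hH : Ind b H) :
    (Nat.card H : ℝ) ≤ (∏ j ∈ Finset.Icc b (a - b), w (a / Nat.gcd a j)) ^ n := by
  have : NeZero ((a : ℕ) : ℚ) := ⟨by exact_mod_cast NeZero.ne a⟩
  have : IsCyclotomicExtension {a} ℚ (CyclotomicField a ℚ) :=
    CyclotomicField.isCyclotomicExtension a ℚ
  exact norm_bound_aux (CyclotomicField a ℚ) hb hH

end Pool.Agent.Hhelper30.Frac
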